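import Mathlib
import Pool.Agent.TH138.LG.Pump2

/-!
# Well quasi-order does not imply context-freeness for shuffle closures (MP_709eaf_lc, Q1)

Let `I` consist of the six permutations of the word `012`.  Then `L_I` is the set of words with the
same number of `0`, `1` and `2`; on it the insertion order is the subword order, hence a well
quasi-order by Higman's lemma, but `L_I` is not context-free.
-/

namespace Pool.Agent.Results.MP_709eaf_lc.NotContextFree

variable {A : Type}

/-- `u ⊢_I v`: `u = u₁ u₂ ⋯ uₙ uₙ₊₁`, `v = u₁ a₁ u₂ a₂ ⋯ uₙ aₙ uₙ₊₁` with `a₁ ⋯ aₙ ∈ I`.  The list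
`ps` is `(u₁, a₁), …, (uₙ, aₙ)` and `r` is `uₙ₊₁`. -/
def Ins (I : Set (List A)) (u v : List A) : Prop :=
  ∃ (ps : List (List A × A)) (r : List A), ps.map Prod.snd ∈ I ∧
    u = (ps.map fun p => p.1).flatten ++ r ∧ v = (ps.map fun p => p.1 ++ [p.2]).flatten ++ r

/-- The reflexive-transitive closure `⊢_I^*`. -/
def InsStar (I : Set (List A)) : List A → List A → Prop := Relation.ReflTransGen (Ins I)

/-- The shuffle closure `L_I`. -/
def ShuffleClosure (I : Set (List A)) : Language A := {u | InsStar I [] u}

/-- The restriction of `le` to `S` is a well quasi-order: every infinite sequence `x₁, x₂, …` in `S`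
has indices `i < j` with `xᵢ ≤ xⱼ`. -/
def IsWqoOn (le : List A → List A → Prop) (S : Set (List A)) : Prop :=
  ∀ x : ℕ → List A, (∀ n, x n ∈ S) → ∃ i j, i < j ∧ le (x i) (x j)

/-! ### Shuffles -/

/-- `Shuf u w v`: `v` is a shuffle of `u` and `w`. -/
inductive Shuf : List A → List A → List A → Prop
  | nil : Shuf [] [] []
  | left (a : A) {u w v : List A} : Shuf u w v → Shuf (a :: u) w (a :: v)
  | right (a : A) {u w v : List A} : Shuf u w v → Shuf u (a :: w) (a :: v)

theorem Shuf.of_nil : ∀ v : List A, Shuf v [] v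
  | [] => .nil
  | a :: v => .left a (of_nil v)

theorem Shuf.eq_of_nil {u w v : List A} (h : Shuf u w v) (hw : w = []) : u = v := by
  induction h with
  | nil => rfl
  | left a _ ih => rw [ih hw]
  | right a _ _ => simp at hw

theorem Shuf.ins {I : Set (List A)} {u w v : List A} (h : Shuf u w v) (hw : w ∈ I) :
    Ins I u v := by
  have : ∃ (ps : List (List A × A)) (r : List A), ps.map Prod.snd = w ∧
      u = (ps.map fun p => p.1).flatten ++ r ∧ v = (ps.map fun p => p.1 ++ [p.2]).flatten ++ r := by
    clear hw
    induction h with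
    | nil => exact ⟨[], [], rfl, rfl, rfl⟩
    | left a _ ih =>
      obtain ⟨ps, r, h1, h2, h3⟩ := ih
      rcases ps with _ | ⟨p, ps⟩
      · refine ⟨[], a :: r, h1, ?_, ?_⟩
        · simpa using h2
        · simpa using h3
      · refine ⟨(a :: p.1, p.2) :: ps, r, h1, ?_, ?_⟩
        · rw [h2]; simp
        · rw [h3]; simp
    | right a _ ih =>
      obtain ⟨ps, r, h1, h2, h3⟩ := ih
      refine ⟨([], a) :: ps, r, by simp [h1], by simp [h2], by simp [h3]⟩
  obtain ⟨ps, r, h1, h2, h3⟩ := this
  exact ⟨ps, r, h1 ▸ hw, h2, h3⟩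

theorem Shuf.of_sublist {u v : List A} (h : u.Sublist v) : ∃ c, Shuf u c v := by
  induction h with
  | slnil => exact ⟨[], .nil⟩
  | cons a _ ih => obtain ⟨c, hc⟩ := ih; exact ⟨a :: c, .right a hc⟩
  | cons_cons a _ ih => obtain ⟨c, hc⟩ := ih; exact ⟨c, .left a hc⟩

theorem Shuf.sublist {u c v : List A} (h : Shuf u c v) : u.Sublist v := by
  induction h with
  | nil => exact List.Sublist.refl _
  | left a _ ih => exact ih.cons_cons a
  | right a _ ih => exact ih.cons a

theorem Shuf.count [DecidableEq A] {u w v : List A} (h : Shuf u w v) (a : A) :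
    v.count a = u.count a + w.count a := by
  induction h with
  | nil => rfl
  | left b _ ih => simp only [List.count_cons, ih]; omega
  | right b _ ih => simp only [List.count_cons, ih]; omega

theorem Shuf.assoc {u c v : List A} (h : Shuf u c v) : ∀ {c' w : List A}, Shuf c' w c →
    ∃ v', Shuf u c' v' ∧ Shuf v' w v := by
  induction h with
  | nil =>
    intro c' w h'
    cases h'
    exact ⟨[], .nil, .nil⟩
  | left a _ ih =>
    intro c' w h'
    obtain ⟨v', h1, h2⟩ := ih h'
    exact ⟨a :: v', .left a h1, .left a h2⟩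
  | right a _ ih =>
    intro c' w h'
    cases h' with
    | left _ h'' =>
      obtain ⟨v', h1, h2⟩ := ih h''
      exact ⟨a :: v', .right a h1, .left a h2⟩
    | right _ h'' =>
      obtain ⟨v', h1, h2⟩ := ih h''
      exact ⟨v', h1, .right a h2⟩

theorem Shuf.comp {u w v : List A} (h : Shuf u w v) : ∀ {a : A} {v' : List A}, Shuf v [a] v' →
    ∃ w', w'.Perm (a :: w) ∧ Shuf u w' v' := by
  intro a v' h'
  generalize hl : [a] = l at h'
  induction h' generalizing u w with
  | nil => simp at hl
  | left b h1 ih =>
    cases h with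
    | left _ h2 =>
      obtain ⟨w', h3, h4⟩ := ih h2 hl
      exact ⟨w', h3, .left b h4⟩
    | right _ h2 =>
      obtain ⟨w', h3, h4⟩ := ih h2 hl
      exact ⟨b :: w', (h3.cons b).trans (List.Perm.swap _ _ _), .right b h4⟩
  | right b h1 _ =>
    simp only [List.cons.injEq] at hl
    obtain ⟨rfl, rfl⟩ := hl
    have := h1.eq_of_nil rfl
    subst this
    exact ⟨a :: w, List.Perm.refl _, .right a h⟩

theorem Shuf.erase [DecidableEq A] {a : A} {c : List A} (h : a ∈ c) :
    Shuf (c.erase a) [a] c := by
  induction c with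
  | nil => simp at h
  | cons b c ih =>
    by_cases hab : b = a
    · subst hab
      rw [List.erase_cons_head]
      exact .right b (.of_nil c)
    · rw [List.erase_cons_tail (by simpa using hab)]
      exact .left b (ih ((List.mem_cons.mp h).resolve_left fun e => hab e.symm))

/-! ### The example -/

/-- The six permutations of `012`. -/
def I : Finset (List (Fin 3)) :=
  {[0, 1, 2], [0, 2, 1], [1, 0, 2], [1, 2, 0], [2, 0, 1], [2, 1, 0]}

theorem mem_I {w : List (Fin 3)} : w ∈ (I : Set (List (Fin 3))) ↔ w.Perm [0, 1, 2] := by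
  have key : ∀ a b c : Fin 3, [a, b, c] ∈ I ↔ [a, b, c].Perm [0, 1, 2] := by decide
  rw [Finset.mem_coe]
  constructor
  · intro h
    have h' := h
    simp only [I, Finset.mem_insert, Finset.mem_singleton] at h'
    rcases h' with rfl | rfl | rfl | rfl | rfl | rfl <;> exact (key _ _ _).mp h
  · intro h
    have hl := h.length_eq
    rcases w with _ | ⟨a, _ | ⟨b, _ | ⟨c, _ | ⟨d, w⟩⟩⟩⟩ <;> simp at hl
    exact (key _ _ _).mpr h

def Bal (w : List (Fin 3)) : Prop := w.count 0 = w.count 1 ∧ w.count 1 = w.count 2

theorem ins_bal {u v : List (Fin 3)} (h : Ins I u v) (hu : Bal u) : Bal v := by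
  obtain ⟨ps, r, h1, rfl, rfl⟩ := h
  have key : ∀ (a : Fin 3) (ps : List (List (Fin 3) × Fin 3)),
      ((ps.map fun p => p.1 ++ [p.2]).flatten ++ r).count a =
      ((ps.map fun p => p.1).flatten ++ r).count a + (ps.map Prod.snd).count a := by
    intro a ps
    induction ps with
    | nil => simp
    | cons p ps ih =>
      simp only [List.map_cons, List.flatten_cons, List.append_assoc, List.count_append,
        List.count_cons, List.count_nil] at ih ⊢
      omega
  have hc : ∀ a : Fin 3, (ps.map Prod.snd).count a = 1 := by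
    intro a
    have h2 : (ps.map Prod.snd).Perm [0, 1, 2] := mem_I.mp h1
    rw [h2.count_eq]
    fin_cases a <;> decide
  unfold Bal at hu ⊢
  rw [key 0, key 1, key 2, hc, hc, hc]
  omega

theorem bal_of_closure {w : List (Fin 3)} (h : w ∈ ShuffleClosure I) : Bal w := by
  have h' : InsStar I [] w := h
  induction h' with
  | refl => exact ⟨rfl, rfl⟩
  | tail _ h2 ih => exact ins_bal h2 (ih (by assumption))

theorem star_of_sublist {u v : List (Fin 3)} (h : u.Sublist v) (hu : Bal u) (hv : Bal v) :
    InsStar I u v := by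
  obtain ⟨c, hc⟩ := Shuf.of_sublist h
  induction hn : c.length using Nat.strong_induction_on generalizing c v with
  | _ n ih =>
    by_cases h0 : c = []
    · rw [hc.eq_of_nil h0]
      exact Relation.ReflTransGen.refl
    have hcount := fun a => hc.count a
    have hcb : Bal c := by
      unfold Bal at *
      have h1 := hcount 0; have h2 := hcount 1; have h3 := hcount 2
      omega
    have hlen : c.length = c.count 0 + c.count 1 + c.count 2 := by
      clear hc hn hcount hcb h0
      induction c with
      | nil => rfl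
      | cons a c ih =>
        simp only [List.length_cons, List.count_cons, ih]
        fin_cases a <;> simp <;> omega
    have hpos : 0 < c.length := List.length_pos_iff.mpr h0
    unfold Bal at hcb
    have m0 : (0 : Fin 3) ∈ c := List.count_pos_iff.mp (by omega)
    have m1 : (1 : Fin 3) ∈ c.erase 0 := by
      apply List.count_pos_iff.mp
      rw [List.count_erase_of_ne (by decide)]
      omega
    have m2 : (2 : Fin 3) ∈ (c.erase 0).erase 1 := by
      apply List.count_pos_iff.mp
      rw [List.count_erase_of_ne (by decide), List.count_erase_of_ne (by decide)]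
      omega
    have s0 := Shuf.erase m0
    have s1 := Shuf.erase m1
    have s2 := Shuf.erase m2
    obtain ⟨w1, p1, q1⟩ := s2.comp s1
    obtain ⟨w2, p2, q2⟩ := q1.comp s0
    have hw2 : w2 ∈ (I : Set (List (Fin 3))) := mem_I.mpr (p2.trans (p1.cons 0))
    obtain ⟨v', hv1, hv2⟩ := hc.assoc q2
    have hstep : Ins I v' v := hv2.ins hw2
    have hv'b : Bal v' := by
      have hw2c : ∀ a : Fin 3, w2.count a = 1 := by
        intro a
        have h2 : w2.Perm [0, 1, 2] := mem_I.mp hw2
        rw [h2.count_eq]
        fin_cases a <;> decide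
      have h1 := hv2.count 0; have h2 := hv2.count 1; have h3 := hv2.count 2
      rw [hw2c] at h1 h2 h3
      unfold Bal at hv ⊢
      omega
    have hlt : (((c.erase 0).erase 1).erase 2).length < n := by
      rw [List.length_erase_of_mem m2, List.length_erase_of_mem m1, List.length_erase_of_mem m0]
      omega
    have hsub : u.Sublist v' := hv1.sublist
    exact (ih _ hlt hsub hv'b _ hv1 rfl).tail hstep

/-- The shuffle closure of the six permutations of `012`. -/
def LI : Language (Fin 3) := ShuffleClosure (I : Set (List (Fin 3)))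

theorem mem_closure {w : List (Fin 3)} : w ∈ LI ↔ Bal w :=
  ⟨bal_of_closure, fun h => star_of_sublist (List.nil_sublist w) ⟨rfl, rfl⟩ h⟩

theorem wqo : IsWqoOn (InsStar (I : Set (List (Fin 3)))) LI := by
  intro x hx
  have hig := Set.PartiallyWellOrderedOn.partiallyWellOrderedOn_sublistForall₂
    (fun a b : Fin 3 => a = b) (s := Set.univ) (Set.toFinite _).partiallyWellOrderedOn
  obtain ⟨i, j, hij, h⟩ := hig (fun n => ⟨x n, by simp⟩)
  refine ⟨i, j, hij, ?_⟩
  have hs : (x i).Sublist (x j) := by
    obtain ⟨l, h1, h2⟩ := List.sublistForall₂_iff.mp h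
    have : x i = l := by
      have h3 : List.Forall₂ Eq (x i) l := h1
      rwa [List.forall₂_eq_eq_eq] at h3
    rwa [this]
  exact star_of_sublist hs (mem_closure.mp (hx i)) (mem_closure.mp (hx j))

/-- The colouring of the contexts. -/
def col (u z : List (Fin 3)) : Bool × Bool × Bool × Bool :=
  (decide (1 ∈ u), decide (2 ∈ u), decide (0 ∈ z), decide (1 ∈ z))

open Pool.Agent.TH138.LG in
theorem not_cf : ¬ LI.IsContextFree := by
  rintro ⟨g, hg⟩
  set N := width g ^ ((inputs g).card * Fintype.card (Bool × Bool × Bool × Bool)) + 1 with hN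
  set w : List (Fin 3) := List.replicate N 0 ++ List.replicate N 1 ++ List.replicate N 2 with hw
  have hc0 : w.count 0 = N := by simp [hw, List.count_replicate]
  have hc1 : w.count 1 = N := by simp [hw, List.count_replicate]
  have hc2 : w.count 2 = N := by simp [hw, List.count_replicate]
  have hsort : w.Pairwise (· ≤ ·) := by
    rw [hw, List.pairwise_append, List.pairwise_append]
    refine ⟨⟨?_, ?_, ?_⟩, ?_, ?_⟩
    · simp [List.pairwise_replicate]
    · simp [List.pairwise_replicate]
    · intro a ha b hb
      rw [List.eq_of_mem_replicate ha]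
      exact Fin.zero_le b
    · simp [List.pairwise_replicate]
    · intro a ha b hb
      rw [List.eq_of_mem_replicate hb]
      exact Fin.le_last a
  have hmem : w ∈ g.language := by
    rw [hg, mem_closure]
    exact ⟨by rw [hc0, hc1], by rw [hc1, hc2]⟩
  have hlen : width g ^ ((inputs g).card * Fintype.card (Bool × Bool × Bool × Bool)) < w.length := by
    rw [hw]
    simp only [List.length_append, List.length_replicate]
    omega
  obtain ⟨u, v, x, y, z, e, hne, hcol, hk⟩ := pumpingC col hmem hlen
  have h2 := hk 2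
  rw [hg, mem_closure] at h2
  have hb : Bal (u ++ (v ++ v) ++ x ++ (y ++ y) ++ z) := by
    simpa [List.replicate_succ] using h2
  have hcount : ∀ a : Fin 3, (u ++ (v ++ v) ++ x ++ (y ++ y) ++ z).count a =
      w.count a + (v.count a + y.count a) := by
    intro a
    rw [e]
    simp only [List.count_append]
    omega
  unfold Bal at hb
  rw [hcount, hcount, hcount, hc0, hc1, hc2] at hb
  rw [e] at hsort
  simp only [List.pairwise_append, List.mem_append] at hsort
  simp only [col, Prod.mk.injEq, decide_eq_decide, List.mem_append] at hcol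
  have huv : ∀ a ∈ u, ∀ b ∈ v, a ≤ b := fun a ha b hb' => by
    have := hsort.1.1.1.2.2 a ha b hb'
    exact this
  have hyz : ∀ a ∈ y, ∀ b ∈ z, a ≤ b := fun a ha b hb' =>
    hsort.2.2 a (Or.inr ha) b hb'
  have m : ∀ (l : List (Fin 3)) (a : Fin 3), a ∈ l ↔ 0 < l.count a := fun l a =>
    List.count_pos_iff.symm
  have v1 : 1 ∈ v → 0 ∉ v := fun h h' => by
    have := huv 1 (hcol.1.mpr (Or.inr h)) 0 h'
    revert this; decide
  have v2 : 2 ∈ v → 0 ∉ v ∧ 1 ∉ v := fun h => by
    refine ⟨fun h' => ?_, fun h' => ?_⟩
    · have := huv 2 (hcol.2.1.mpr (Or.inr h)) 0 h'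
      revert this; decide
    · have := huv 2 (hcol.2.1.mpr (Or.inr h)) 1 h'
      revert this; decide
  have y0 : 0 ∈ y → 1 ∉ y ∧ 2 ∉ y := fun h => by
    refine ⟨fun h' => ?_, fun h' => ?_⟩
    · have := hyz 1 h' 0 (hcol.2.2.1.mpr (Or.inl h))
      revert this; decide
    · have := hyz 2 h' 0 (hcol.2.2.1.mpr (Or.inl h))
      revert this; decide
  have y1 : 1 ∈ y → 2 ∉ y := fun h h' => by
    have := hyz 2 h' 1 (hcol.2.2.2.mpr (Or.inl h))
    revert this; decide
  have hl : ∀ l : List (Fin 3), l ≠ [] → 0 < l.count 0 ∨ 0 < l.count 1 ∨ 0 < l.count 2 := by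
    intro l hl
    obtain ⟨a, l', rfl⟩ := List.exists_cons_of_ne_nil hl
    fin_cases a <;> simp
  simp only [m] at v1 v2 y0 y1
  rcases hne with h | h
  · have := hl v h
    omega
  · have := hl y h
    omega

/-- **MP_709eaf_lc, Q1: No.**  There is a finite set `I` of nonempty words over three letters such
that `⊢_I^*` is a well quasi-order on `L_I` while `L_I` is not context-free. -/
theorem result : ∃ I : Finset (List (Fin 3)), [] ∉ I ∧
    IsWqoOn (InsStar (I : Set (List (Fin 3)))) (ShuffleClosure (I : Set (List (Fin 3)))) ∧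
    ¬ (ShuffleClosure (I : Set (List (Fin 3)))).IsContextFree :=
  ⟨I, by decide, wqo, not_cf⟩

end Pool.Agent.Results.MP_709eaf_lc.NotContextFree
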